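import Mathlib

/-!
# Inequivalent generator multiplicities with isomorphic sandpile groups

For `r = 2` the multiplicity functions `(5, 4, 1)` and `(8, 2, 1)` (on `(1,0)`, `(0,1)`, `(1,1)`) are
not `GL`-equivalent, but the sandpile groups of their Cayley graphs are isomorphic: the two
Laplacians are equivalent over `ℤ`, `P L = L' R` with unimodular `P`, `R` (both groups are
`ℤ/3 × ℤ/180`).
-/

set_option autoImplicit false

namespace Pool.Agent.Results.MP_93e4b7_co.SameGroup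

open Finset

/-- A multiplicity function on the nonzero vectors of `𝔽₂^r`. -/
abbrev Mult (r : ℕ) : Type := {u : Fin r → ZMod 2 // u ≠ 0} → ℕ

/-- The support of the multiplicity function spans `𝔽₂^r`. -/
def Mult.IsGenerator {r : ℕ} (μ : Mult r) : Prop :=
  Submodule.span (ZMod 2) {v : Fin r → ZMod 2 | ∃ h : v ≠ 0, μ ⟨v, h⟩ ≠ 0} = ⊤

/-- The number of edges joining `w` and `w'` in the Cayley graph: `μ(w' - w)` if `w ≠ w'`. -/
def Mult.edges {r : ℕ} (μ : Mult r) (w w' : Fin r → ZMod 2) : ℕ :=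
  if h : w' - w ≠ 0 then μ ⟨w' - w, h⟩ else 0

/-- The Laplacian of the Cayley graph. -/
def Mult.laplacian {r : ℕ} (μ : Mult r) : Matrix (Fin r → ZMod 2) (Fin r → ZMod 2) ℤ :=
  fun w w' => if w = w' then ∑ x, (μ.edges w x : ℤ) else -(μ.edges w w' : ℤ)

/-- The cokernel of the Laplacian. -/
abbrev Mult.Coker {r : ℕ} (μ : Mult r) : Type :=
  ((Fin r → ZMod 2) → ℤ) ⧸ LinearMap.range μ.laplacian.mulVecLin

/-- The sandpile group: the torsion subgroup of the cokernel of the Laplacian. -/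
abbrev Mult.Sandpile {r : ℕ} (μ : Mult r) : Type := AddCommGroup.torsion μ.Coker

/-- `GL`-equivalence of multiplicity functions. -/
def Mult.GLEquiv {r : ℕ} (μ ν : Mult r) : Prop :=
  ∃ T : (Fin r → ZMod 2) ≃ₗ[ZMod 2] (Fin r → ZMod 2),
    ∀ u : {u : Fin r → ZMod 2 // u ≠ 0}, ν ⟨T u, T.map_ne_zero_iff.2 u.2⟩ = μ u

/-- Equivalent integer matrices have isomorphic cokernels. -/
theorem coker_equiv {n : Type} [Fintype n] [DecidableEq n] (A B P P' R R' : Matrix n n ℤ)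
    (h1 : P * P' = 1) (h2 : P' * P = 1) (h3 : R * R' = 1) (h : P * A = B * R) :
    Nonempty (((n → ℤ) ⧸ LinearMap.range A.mulVecLin) ≃+
      ((n → ℤ) ⧸ LinearMap.range B.mulVecLin)) := by
  let e : (n → ℤ) ≃ₗ[ℤ] (n → ℤ) :=
    LinearEquiv.ofLinearMap P.mulVecLin P'.mulVecLin
      (by rw [← Matrix.mulVecLin_mul, h1, Matrix.mulVecLin_one])
      (by rw [← Matrix.mulVecLin_mul, h2, Matrix.mulVecLin_one])
  refine ⟨(Submodule.Quotient.equiv _ _ e ?_).toAddEquiv⟩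
  apply le_antisymm
  · rintro _ ⟨_, ⟨x, rfl⟩, rfl⟩
    refine ⟨R.mulVec x, ?_⟩
    change B.mulVec (R.mulVec x) = P.mulVec (A.mulVec x)
    rw [Matrix.mulVec_mulVec, Matrix.mulVec_mulVec, h]
  · rintro _ ⟨x, rfl⟩
    refine ⟨A.mulVec (R'.mulVec x), ⟨_, rfl⟩, ?_⟩
    change P.mulVec (A.mulVec (R'.mulVec x)) = B.mulVec x
    rw [Matrix.mulVec_mulVec, Matrix.mulVec_mulVec, h, Matrix.mul_assoc, h3, Matrix.mul_one]

theorem torsion_equiv {G H : Type} [AddCommGroup G] [AddCommGroup H] (e : G ≃+ H) :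
    Nonempty (AddCommGroup.torsion G ≃+ AddCommGroup.torsion H) := by
  have key : ∀ {G H : Type} [AddCommGroup G] [AddCommGroup H] (e : G ≃+ H) (x : G),
      x ∈ AddCommGroup.torsion G → e x ∈ AddCommGroup.torsion H := by
    intro G H _ _ e x hx
    exact AddMonoidHom.isOfFinAddOrder (e : G →+ H) hx
  refine ⟨{
    toFun := fun x => ⟨e x, key e x x.2⟩
    invFun := fun x => ⟨e.symm x, key e.symm x x.2⟩
    left_inv := fun x => by simp
    right_inv := fun x => by simp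
    map_add' := fun x y => by simp }⟩

/-- Enumeration of `𝔽₂²`. -/
def idx (u : Fin 2 → ZMod 2) : Fin 4 :=
  if u 0 = 0 then (if u 1 = 0 then 0 else 2) else (if u 1 = 0 then 1 else 3)

/-- Multiplicities `5, 4, 1`. -/
def μ₀ : Mult 2 := fun u => ![0, 5, 4, 1] (idx u)

/-- Multiplicities `8, 2, 1`. -/
def ν₀ : Mult 2 := fun u => ![0, 8, 2, 1] (idx u)

/-- A matrix indexed by `𝔽₂²`. -/
def mk (M : Matrix (Fin 4) (Fin 4) ℤ) : Matrix (Fin 2 → ZMod 2) (Fin 2 → ZMod 2) ℤ :=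
  fun u v => M (idx u) (idx v)

def P : Matrix (Fin 2 → ZMod 2) (Fin 2 → ZMod 2) ℤ :=
  mk !![0, -16, 17, 20; 1, 16, -15, -21; 0, 0, 0, 1; 0, 1, -1, 1]
def P' : Matrix (Fin 2 → ZMod 2) (Fin 2 → ZMod 2) ℤ :=
  mk !![-1, 1, 73, -32; 1, 0, -37, 17; 1, 0, -36, 16; 0, 0, 1, 0]
def R : Matrix (Fin 2 → ZMod 2) (Fin 2 → ZMod 2) ℤ :=
  mk !![0, -15, 8, 8; 1, 12, 0, -12; 0, -2, 1, 2; 0, 0, 0, 1]
def R' : Matrix (Fin 2 → ZMod 2) (Fin 2 → ZMod 2) ℤ :=
  mk !![-12, 1, 96, -84; 1, 0, -8, 8; 2, 0, -15, 14; 0, 0, 0, 1]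


theorem hPP : P * P' = 1 := by decide +kernel
theorem hPP' : P' * P = 1 := by decide +kernel
theorem hRR : R * R' = 1 := by decide +kernel
theorem hPA : P * μ₀.laplacian = ν₀.laplacian * R := by decide +kernel

theorem gen (μ : Mult 2) (h1 : ∀ u, μ u ≠ 0) : μ.IsGenerator := by
  unfold Mult.IsGenerator
  rw [eq_top_iff]
  intro v _
  by_cases hv : v = 0
  · rw [hv]
    exact Submodule.zero_mem _
  · exact Submodule.subset_span ⟨hv, h1 _⟩

/-- **Main result.**  There are `r` and generator multiplicity functions on `𝔽₂^r` which are not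
`GL`-equivalent but have isomorphic sandpile groups. -/
theorem result : ∃ r : ℕ, 1 ≤ r ∧ ∃ μ ν : Mult r, μ.IsGenerator ∧ ν.IsGenerator ∧
    ¬ μ.GLEquiv ν ∧ Nonempty (μ.Sandpile ≃+ ν.Sandpile) := by
  refine ⟨2, by norm_num, μ₀, ν₀, gen _ (by decide), gen _ (by decide), ?_, ?_⟩
  · rintro ⟨T, hT⟩
    have h2 := hT ⟨![1, 0], by decide⟩
    have h3 : ∀ u, ν₀ u ≠ 5 := by decide
    exact h3 _ h2
  · obtain ⟨e⟩ := coker_equiv μ₀.laplacian ν₀.laplacian P P' R R' hPP hPP' hRR hPA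
    exact torsion_equiv e

end Pool.Agent.Results.MP_93e4b7_co.SameGroup
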